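import Mathlib
import Pool.Agent.Y674.HY.Stm

/-!
Project HY: at most two conjugates.
-/

set_option autoImplicit false

namespace Pool.Agent.Y232.HY

open Polynomial NumberField Pool.Agent.Y674.HY

/-- every embedding of a Galois field is `ψ` composed with an automorphism -/
theorem exists_aut {L : Type} [Field L] [NumberField L] [IsGalois ℚ L] (ψ τ : L →+* ℂ) :
    ∃ h : L ≃ₐ[ℚ] L, ∀ x, τ x = ψ (h x) := by
  obtain ⟨σ, hσ⟩ := NumberField.ComplexEmbedding.exists_comp_symm_eq_of_comp_eq (k := ℚ) ψ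
    τ (Subsingleton.elim _ _)
  exact ⟨σ.symm, fun x => (congrArg (fun f : L →+* ℂ => f x) hσ).symm⟩

/-- two embeddings of `F` in the Galois field `L` are conjugate -/
theorem exists_conj {F L : Type} [Field F] [NumberField F] [Field L] [NumberField L]
    [IsGalois ℚ L] (ψ : L →+* ℂ) (σ0 σ : F →+* L) :
    ∃ h : L ≃ₐ[ℚ] L, ∀ a, h (σ0 a) = σ a := by
  let _i1 : Algebra F L := σ0.toAlgebra
  let _i2 : Algebra F ℂ := (ψ.comp σ).toAlgebra
  have htow : IsScalarTower ℚ F L := IsScalarTower.of_algebraMap_eq fun q => by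
    simp
  have halg : Algebra.IsAlgebraic F L := Algebra.IsAlgebraic.tower_top (K := ℚ) F
  let τ : L →ₐ[F] ℂ := IsAlgClosed.lift
  have h1 : ∀ a : F, τ (σ0 a) = ψ (σ a) := fun a => τ.commutes a
  obtain ⟨h, hh⟩ := exists_aut ψ (τ : L →+* ℂ)
  refine ⟨h, fun a => ψ.injective ?_⟩
  rw [← hh, ← h1]
  rfl

theorem conj : CONJ := by
  intro F L _ _ _ _ _ ψ hψ N w u η hη hN S hS hSN
  have hfin : S.index ≠ 0 := Subgroup.index_ne_zero_of_finite
  have hnormal : S.Normal := by
    rcases (by omega : S.index = 1 ∨ S.index = 2) with h | h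
    · rw [Subgroup.index_eq_one] at h
      rw [h]
      infer_instance
    · exact Subgroup.normal_of_index_eq_two h
  -- the elements of `S` fix the conjugates
  have claim : ∀ g ∈ S, ∀ σ : F →+* L, g (σ (w : F)) = σ (w : F) := by
    intro g hg σ
    by_contra hne
    have hδ : σ (w : F) - g (σ (w : F)) ≠ 0 := by
      intro h
      exact hne (sub_eq_zero.1 h).symm
    have hint1 : IsIntegral ℤ (σ (w : F)) := w.2.map σ.toIntAlgHom
    have hint2 : IsIntegral ℤ (g (σ (w : F))) := hint1.map (g : L →+* L).toIntAlgHom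
    have hlt : ∀ τ : L →+* ℂ, ‖τ (σ (w : F) - g (σ (w : F)))‖ < 1 := by
      intro τ
      obtain ⟨h, hh⟩ := exists_aut ψ τ
      rw [hh, map_sub, map_sub]
      have e1 : h (σ (w : F)) = ((h : L →+* L).comp σ) (w : F) := rfl
      have e2 : h (g (σ (w : F))) =
          (((h * g * h⁻¹ : L ≃ₐ[ℚ] L) : L →+* L).comp ((h : L →+* L).comp σ)) (w : F) := by
        change h (g (σ (w : F))) = (h * g * h⁻¹) (h (σ (w : F)))
        rw [AlgEquiv.mul_apply, AlgEquiv.mul_apply]
        congr 2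
        exact (h.symm_apply_apply _).symm
      have h1 := hN ((h : L →+* L).comp σ)
      have h2 := hN (((h * g * h⁻¹ : L ≃ₐ[ℚ] L) : L →+* L).comp ((h : L →+* L).comp σ))
      rw [hSN _ (hnormal.conj_mem g hg h)] at h2
      rw [e1, e2]
      obtain ⟨A, hA⟩ : ∃ A : ℂ, A = ψ (((h : L →+* L).comp σ) (w : F)) := ⟨_, rfl⟩
      obtain ⟨B, hB⟩ : ∃ B : ℂ, B = ψ ((((h * g * h⁻¹ : L ≃ₐ[ℚ] L) : L →+* L).comp
        ((h : L →+* L).comp σ)) (w : F)) := ⟨_, rfl⟩
      obtain ⟨c, hc⟩ : ∃ c : ℂ, c = (N ((h : L →+* L).comp σ) : ℂ) * (u : ℂ) := ⟨_, rfl⟩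
      rw [← hA, ← hc] at h1
      rw [← hB, ← hc] at h2
      rw [← hA, ← hB]
      calc ‖A - B‖ = ‖(A - c) - (B - c)‖ := by congr 1; ring
        _ ≤ ‖A - c‖ + ‖B - c‖ := norm_sub_le _ _
        _ < 1 := by linarith
    obtain ⟨n, hn, hn1⟩ := NumberField.Embeddings.pow_eq_one_of_norm_le_one L ℂ hδ
      (hint1.sub hint2) (fun τ => (hlt τ).le)
    have h3 : ‖ψ (σ (w : F) - g (σ (w : F)))‖ ^ n = 1 := by
      rw [← norm_pow, ← map_pow, hn1, map_one, norm_one]
    exact absurd h3 (pow_lt_one₀ (norm_nonneg _) (hlt ψ) hn.ne').ne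
  -- the embeddings of `F` in `ℂ`
  have hfac : ∀ σ : F →+* ℂ, ∃ σ' : F →+* L, ∀ a, ψ (σ' a) = σ a := by
    intro σ
    choose b hb using hψ σ
    refine ⟨{ toFun := b
              map_one' := ψ.injective (by rw [hb, map_one, map_one])
              map_mul' := fun x y => ψ.injective (by rw [hb, map_mul, map_mul, hb, hb])
              map_zero' := ψ.injective (by rw [hb, map_zero, map_zero])
              map_add' := fun x y => ψ.injective (by rw [hb, map_add, map_add, hb, hb]) }, hb⟩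
  obtain ⟨σ1⟩ : Nonempty (F →+* ℂ) := inferInstance
  obtain ⟨σ0, hσ0⟩ := hfac σ1
  have key : ∃ a b : ℂ, (Set.range fun σ : F →+* ℂ => σ (w : F)) ⊆ {a, b} := by
    by_cases hT : S = ⊤
    · refine ⟨ψ (σ0 (w : F)), ψ (σ0 (w : F)), ?_⟩
      rintro _ ⟨σ, rfl⟩
      obtain ⟨σ', hσ'⟩ := hfac σ
      obtain ⟨g, hg⟩ := exists_conj ψ σ0 σ'
      left
      change σ (w : F) = _
      rw [← hσ', ← hg, claim g (by rw [hT]; trivial) σ0]
    · obtain ⟨t, ht⟩ : ∃ t, t ∉ S := by
        by_contra hcon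
        push Not at hcon
        exact hT ((Subgroup.eq_top_iff' S).2 hcon)
      have h2 : S.index = 2 := by
        rcases (by omega : S.index = 1 ∨ S.index = 2) with h | h
        · exact absurd (Subgroup.index_eq_one.1 h) hT
        · exact h
      refine ⟨ψ (σ0 (w : F)), ψ (t (σ0 (w : F))), ?_⟩
      rintro _ ⟨σ, rfl⟩
      obtain ⟨σ', hσ'⟩ := hfac σ
      obtain ⟨g, hg⟩ := exists_conj ψ σ0 σ'
      by_cases hgS : g ∈ S
      · left
        change σ (w : F) = _
        rw [← hσ', ← hg, claim g hgS σ0]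
      · right
        change σ (w : F) = _
        have h3 : g * t⁻¹ ∈ S := by
          rw [Subgroup.mul_mem_iff_of_index_two h2]
          constructor
          · intro h
            exact absurd h hgS
          · intro h
            exact absurd (S.inv_mem_iff.1 h) ht
        have h4 := claim _ h3 ((t : L →+* L).comp σ0)
        have h5 : (g * t⁻¹) (((t : L →+* L).comp σ0) (w : F)) = g (σ0 (w : F)) := by
          change (g * t⁻¹) (t (σ0 (w : F))) = _
          rw [AlgEquiv.mul_apply]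
          congr 1
          exact t.symm_apply_apply _
        rw [h5] at h4
        rw [← hσ', ← hg, h4]
        rfl
  obtain ⟨a, b, hab⟩ := key
  exact (Set.ncard_le_ncard hab (Set.toFinite _)).trans 
    ((Set.ncard_insert_le a {b}).trans (by rw [Set.ncard_singleton]))

end Pool.Agent.Y232.HY
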